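import Pool.Agent.Q65.GL.SER

/-!
Project GL (helper120), job EXT: the extremal even numbers.
-/

set_option autoImplicit false

namespace Pool.Agent.Q65.GL

open Finset Filter Topology MeasureTheory Pool.Agent.Q120.GM Pool.Agent.Q120.CL Pool.Agent.Q120.MG Pool.Agent.Q120.HL
  Pool.Agent.Q120.GL

theorem cast_top : Tendsto (fun k : ℕ => (k : ℝ)) atTop atTop := tendsto_natCast_atTop_atTop

theorem logk_top : Tendsto (fun k : ℕ => Real.log (k : ℝ)) atTop atTop := Real.tendsto_log_atTop.comp cast_top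

theorem near_top8 {a : ℝ} (ha : 0 < a) {u : ℕ → ℕ} (hu : ∀ᶠ k : ℕ in atTop, (k : ℝ) ^ a / 8 ≤ u k ∧ (u k : ℝ) ≤ 8 * (k : ℝ) ^ a) :
    Tendsto u atTop atTop := by
  have h1 : Tendsto (fun k : ℕ => (k : ℝ) ^ a / 8) atTop atTop :=
    Tendsto.atTop_div_const (by norm_num) ((tendsto_rpow_atTop ha).comp cast_top)
  have h2 : Tendsto (fun k : ℕ => (u k : ℝ)) atTop atTop := tendsto_atTop_mono' _ (hu.mono (fun k hk => hk.1)) h1
  exact tendsto_natCast_atTop_iff.1 h2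

theorem log_near8 {a : ℝ} {u : ℕ → ℕ} (hu : ∀ᶠ k : ℕ in atTop, (k : ℝ) ^ a / 8 ≤ u k ∧ (u k : ℝ) ≤ 8 * (k : ℝ) ^ a) :
    Tendsto (fun k : ℕ => Real.log (u k) / Real.log k) atTop (𝓝 a) := by
  have h1 : Tendsto (fun k : ℕ => a - Real.log 8 / Real.log k) atTop (𝓝 a) := by
    have := (tendsto_const_nhds (x := Real.log 8)).div_atTop logk_top
    simpa using (tendsto_const_nhds (x := a)).sub this
  have h2 : Tendsto (fun k : ℕ => a + Real.log 8 / Real.log k) atTop (𝓝 a) := by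
    have := (tendsto_const_nhds (x := Real.log 8)).div_atTop logk_top
    simpa using (tendsto_const_nhds (x := a)).add this
  refine tendsto_of_tendsto_of_tendsto_of_le_of_le' h1 h2 ?_ ?_
  · filter_upwards [hu, logk_top.eventually_gt_atTop 0, eventually_gt_atTop 0] with k h3 h4 h5
    have h5' : (0 : ℝ) < k := by exact_mod_cast h5
    rw [le_div_iff₀ h4, sub_mul, div_mul_cancel₀ _ h4.ne', ← Real.log_rpow h5', ← Real.log_div (by positivity) (by norm_num)]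
    exact Real.log_le_log (by positivity) h3.1
  · filter_upwards [hu, logk_top.eventually_gt_atTop 0, eventually_gt_atTop 0] with k h3 h4 h5
    have h5' : (0 : ℝ) < k := by exact_mod_cast h5
    rw [div_le_iff₀ h4, add_mul, div_mul_cancel₀ _ h4.ne', ← Real.log_rpow h5', ← Real.log_mul (by positivity) (by norm_num)]
    have h6 : (0 : ℝ) < u k := lt_of_lt_of_le (by positivity) h3.1
    exact Real.log_le_log h6 (by linarith [h3.2])

theorem Vratio8 {a b : ℝ} (ha : 0 < a) (hb : 0 < b) {u v : ℕ → ℕ}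
    (hu : ∀ᶠ k : ℕ in atTop, (k : ℝ) ^ a / 8 ≤ u k ∧ (u k : ℝ) ≤ 8 * (k : ℝ) ^ a)
    (hv : ∀ᶠ k : ℕ in atTop, (k : ℝ) ^ b / 8 ≤ v k ∧ (v k : ℝ) ≤ 8 * (k : ℝ) ^ b) :
    Tendsto (fun k : ℕ => Vf (u k) / Vf (v k)) atTop (𝓝 (b / a)) := by
  obtain ⟨c, hc⟩ : ∃ c, c = Real.exp (-Real.eulerMascheroniConstant) := ⟨_, rfl⟩
  have hc0 : 0 < c := by rw [hc]; exact Real.exp_pos _
  have h1 := Vf_lim
  rw [← hc] at h1
  have h2 : Tendsto (fun k : ℕ => Vf (u k) * Real.log (u k)) atTop (𝓝 c) := h1.comp (near_top8 ha hu)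
  have h3 : Tendsto (fun k : ℕ => Vf (v k) * Real.log (v k)) atTop (𝓝 c) := h1.comp (near_top8 hb hv)
  have h4 := h2.div h3 hc0.ne'
  rw [div_self hc0.ne'] at h4
  have h5 := (log_near8 hv).div (log_near8 hu) ha.ne'
  have h6 := h4.mul h5
  rw [one_mul] at h6
  refine h6.congr' ?_
  have hu2 := (near_top8 ha hu).eventually_ge_atTop 2
  have hv2 := (near_top8 hb hv).eventually_ge_atTop 2
  filter_upwards [hu2, hv2, logk_top.eventually_gt_atTop 0] with k h7 h8 h9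
  have e1 : 0 < Real.log (u k : ℝ) := Real.log_pos (by
    have : (2 : ℝ) ≤ u k := by exact_mod_cast h7
    linarith)
  have e2 : 0 < Real.log (v k : ℝ) := Real.log_pos (by
    have : (2 : ℝ) ≤ v k := by exact_mod_cast h8
    linarith)
  have e3 := Vf_pos (v k)
  simp only [Pi.div_apply]
  field_simp

theorem floor_near8 {a : ℝ} (ha : 0 < a) : ∀ᶠ k : ℕ in atTop, (k : ℝ) ^ a / 8 ≤ (⌊(k : ℝ) ^ a⌋₊ : ℕ) ∧
    ((⌊(k : ℝ) ^ a⌋₊ : ℕ) : ℝ) ≤ 8 * (k : ℝ) ^ a := by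
  have h1 : Tendsto (fun k : ℕ => (k : ℝ) ^ a) atTop atTop := (tendsto_rpow_atTop ha).comp cast_top
  filter_upwards [h1.eventually_ge_atTop 2] with k h2
  have h3 := Nat.floor_le (show 0 ≤ (k : ℝ) ^ a by linarith)
  have h4 := Nat.lt_floor_add_one ((k : ℝ) ^ a)
  exact ⟨by linarith, by linarith⟩

theorem quarter_ge {k : ℕ} (hk : 8 ≤ k) : (k : ℝ) / 8 ≤ ((k / 4 : ℕ) : ℝ) := by
  have h1 : k ≤ 8 * (k / 4) := by omega
  have h2 : (k : ℝ) ≤ 8 * ((k / 4 : ℕ) : ℝ) := by exact_mod_cast h1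
  linarith

theorem quarter_near : ∀ᶠ k : ℕ in atTop, (k : ℝ) ^ (1 : ℝ) / 8 ≤ ((k / 4 : ℕ) : ℝ) ∧
    ((k / 4 : ℕ) : ℝ) ≤ 8 * (k : ℝ) ^ (1 : ℝ) := by
  filter_upwards [eventually_ge_atTop 8] with k hk
  rw [Real.rpow_one]
  refine ⟨quarter_ge hk, ?_⟩
  have h1 : k / 4 ≤ 8 * k := by omega
  exact_mod_cast h1

theorem Sz_inv {n w : ℕ} (hn : 1 ≤ n) (h : ∀ p, p.Prime → p < w → p ∣ n) : Sz {0, n} w = 1 / Vf w := by
  unfold Sz Vf
  rw [one_div, ← prod_inv_distrib]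
  refine prod_congr rfl (fun p hp => ?_)
  rw [loc_dvd hn (mem_filter.1 hp).2 (h p (mem_filter.1 hp).2 (mem_range.1 (mem_filter.1 hp).1)), one_div]

theorem exists_n {K : ℕ} (hK : 12 ≤ K) : ∃ n : ℕ, Even n ∧ 2 ^ K ≤ n ∧ n < 2 ^ (K + 1) ∧
    ∀ p, p.Prime → p < K / 4 → p ∣ n := by
  have hP0 : 0 < PQ (K / 4) := PQ_pos _
  have hP1 : PQ (K / 4) ≤ 2 ^ K := by
    calc PQ (K / 4) ≤ 4 ^ (K / 4) := PQ_le _
      _ = 2 ^ (2 * (K / 4)) := by rw [pow_mul]; norm_num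
      _ ≤ 2 ^ K := Nat.pow_le_pow_right (by norm_num) (by omega)
  have hd : ∀ p, p.Prime → p < K / 4 → p ∣ PQ (K / 4) := by
    intro p hp hlt
    unfold PQ
    exact dvd_prod_of_mem (fun q => q) (mem_filter.2 ⟨mem_range.2 hlt, hp⟩)
  obtain ⟨P, hP⟩ : ∃ P, P = PQ (K / 4) := ⟨_, rfl⟩
  rw [← hP] at hP0 hP1 hd
  have h1 : 2 ^ K + P - 1 < P * ((2 ^ K + P - 1) / P + 1) := Nat.lt_mul_div_succ _ hP0
  have h2 : P * ((2 ^ K + P - 1) / P) ≤ 2 ^ K + P - 1 := Nat.mul_div_le _ _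
  refine ⟨P * ((2 ^ K + P - 1) / P), ?_, ?_, ?_, ?_⟩
  · have h3 := hd 2 Nat.prime_two (by omega)
    exact even_iff_two_dvd.2 (dvd_mul_of_dvd_left h3 _)
  · rw [Nat.mul_add, mul_one] at h1
    omega
  · have h4 : 2 ^ (K + 1) = 2 ^ K + 2 ^ K := by rw [pow_succ]; ring
    omega
  · intro p hp hlt
    exact dvd_mul_of_dvd_left (hd p hp hlt) _

theorem t_EXT : J_EXT := by
  intro z θ κ hmono hθ0 hθ1 hθκ hlow
  obtain ⟨a, ha1, ha2, ha3⟩ : ∃ a : ℝ, θ < a ∧ a < 1 ∧ a < κ := by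
    obtain ⟨a, h1, h2⟩ := exists_between (lt_min hθ1 hθκ)
    exact ⟨a, h1, lt_of_lt_of_le h2 (min_le_left _ _), lt_of_lt_of_le h2 (min_le_right _ _)⟩
  have ha0 : 0 < a := by linarith
  have hκ0 : 0 < κ := by linarith
  have hV := Vratio8 one_pos ha0 quarter_near (floor_near8 ha0)
  rw [div_one] at hV
  have hy : Tendsto (fun k : ℕ => k / 4) atTop atTop := near_top8 one_pos quarter_near
  have h8 : Tendsto (fun k : ℕ => κ * (1 - 8 / ((k / 4 : ℕ) : ℝ))) atTop (𝓝 (κ * (1 - 0))) := by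
    refine Tendsto.const_mul κ (tendsto_const_nhds.sub ?_)
    exact (tendsto_const_nhds (x := (8 : ℝ))).div_atTop (cast_top.comp hy)
  rw [sub_zero, mul_one] at h8
  have h9 : ∀ᶠ k : ℕ in atTop, Vf (k / 4) / Vf ⌊(k : ℝ) ^ a⌋₊ < κ * (1 - 8 / ((k / 4 : ℕ) : ℝ)) :=
    hV.eventually_lt h8 ha3
  have h10 : Tendsto (fun k : ℕ => (k : ℝ) ^ (1 - a)) atTop atTop := (tendsto_rpow_atTop (by linarith)).comp cast_top
  have h11 := hlow (a - θ) (by linarith)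
  have h12 := h11.and_eventually ((h9.and (h10.eventually_ge_atTop 8)).and (eventually_ge_atTop 32))
  refine h12.mono ?_
  rintro K ⟨hz, ⟨hR, hbig⟩, hK⟩
  rw [add_sub_cancel] at hz
  obtain ⟨n, hn1, hn2, hn3, hn4⟩ := exists_n (show 12 ≤ K by omega)
  have hn0 : 1 ≤ n := le_trans Nat.one_le_two_pow hn2
  refine ⟨n, hn1, hn2, hn3, fun j hj => ?_⟩
  have hK0 : (0 : ℝ) < K := by
    have : 0 < K := by omega
    exact_mod_cast this
  have hu : ⌊(K : ℝ) ^ a⌋₊ ≤ K / 4 := by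
    have e1 : (K : ℝ) ^ a ≤ (K : ℝ) / 8 := by
      rw [le_div_iff₀ (by norm_num)]
      calc (K : ℝ) ^ a * 8 ≤ (K : ℝ) ^ a * (K : ℝ) ^ (1 - a) := mul_le_mul_of_nonneg_left hbig (by positivity)
        _ = (K : ℝ) := by
          rw [← Real.rpow_add hK0]
          have : a + (1 - a) = 1 := by ring
          rw [this, Real.rpow_one]
    have e2 := quarter_ge (show 8 ≤ K by omega)
    exact Nat.floor_le_of_le (e1.trans e2)
  have hzj : z j ≤ ⌊(K : ℝ) ^ a⌋₊ := le_trans (hmono hj) (Nat.le_floor hz)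
  have e3 : Sz {0, n} (z j) = 1 / Vf (z j) := Sz_inv hn0 (fun p hp hlt => hn4 p hp (by omega))
  have e4 : Sz {0, n} (K / 4) = 1 / Vf (K / 4) := Sz_inv hn0 hn4
  have e5 := SS_lower (D := {0, n}) (z := K / 4) (by rw [card_two hn0]; omega) (by omega)
  rw [card_two hn0, e4] at e5
  have v1 := Vf_pos (z j)
  have v2 := Vf_pos ⌊(K : ℝ) ^ a⌋₊
  have v3 := Vf_pos (K / 4)
  have v4 := Vf_anti hzj
  rw [e3]
  have e6 : 1 / Vf ⌊(K : ℝ) ^ a⌋₊ ≤ κ * ((1 - 8 / ((K / 4 : ℕ) : ℝ)) * (1 / Vf (K / 4))) := by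
    have e7 : 1 / Vf ⌊(K : ℝ) ^ a⌋₊ = Vf (K / 4) / Vf ⌊(K : ℝ) ^ a⌋₊ * (1 / Vf (K / 4)) := by field_simp
    rw [e7, ← mul_assoc]
    exact mul_le_mul_of_nonneg_right hR.le (by positivity)
  have e8 : 2 * ((2 : ℕ) : ℝ) ^ 2 / ((K / 4 : ℕ) : ℝ) = 8 / ((K / 4 : ℕ) : ℝ) := by norm_num
  rw [e8] at e5
  calc 1 / Vf (z j) ≤ 1 / Vf ⌊(K : ℝ) ^ a⌋₊ := one_div_le_one_div_of_le v2 v4
    _ ≤ κ * ((1 - 8 / ((K / 4 : ℕ) : ℝ)) * (1 / Vf (K / 4))) := e6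
    _ ≤ κ * SS {0, n} := mul_le_mul_of_nonneg_left e5 hκ0.le

end Pool.Agent.Q65.GL
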