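import Pool.Agent.Q120.GL.Stm

/-!
Project GL (helper120), job SER: the singular series of `{0, n}`.
-/

set_option autoImplicit false

namespace Pool.Agent.Q65.GL

open Finset Filter Topology MeasureTheory Pool.Agent.Q120.GM Pool.Agent.Q120.CL Pool.Agent.Q120.MG Pool.Agent.Q120.HL
  Pool.Agent.Q120.GL

theorem card_two {n : ℕ} (hn : 1 ≤ n) : ({0, n} : Finset ℕ).card = 2 := card_pair (by omega)

theorem nu_dvd {n p : ℕ} (h : p ∣ n) : nu {0, n} p = 1 := by
  unfold nu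
  have h1 : n % p = 0 := Nat.mod_eq_zero_of_dvd h
  rw [image_insert, image_singleton, h1, Nat.zero_mod]
  simp

theorem nu_ndvd {n p : ℕ} (h : ¬ p ∣ n) : nu {0, n} p = 2 := by
  unfold nu
  have h1 : n % p ≠ 0 := fun h2 => h (Nat.dvd_of_mod_eq_zero h2)
  rw [image_insert, image_singleton, Nat.zero_mod]
  exact card_pair (Ne.symm h1)

theorem loc_dvd {n p : ℕ} (hn : 1 ≤ n) (hp : p.Prime) (h : p ∣ n) : loc {0, n} p = 1 / (1 - 1 / (p : ℝ)) := by
  unfold loc
  rw [nu_dvd h, card_two hn]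
  have h1 : (1 : ℝ) < p := by exact_mod_cast hp.one_lt
  have h2 : 1 / (p : ℝ) < 1 := by rw [div_lt_one (by linarith)]; exact h1
  have h3 : (0 : ℝ) < 1 - 1 / (p : ℝ) := by linarith
  push_cast
  rw [div_eq_div_iff (by positivity) (by positivity)]
  ring

theorem loc_ndvd {n p : ℕ} (hn : 1 ≤ n) (hp : p.Prime) (h : ¬ p ∣ n) :
    loc {0, n} p = 1 - 1 / ((p : ℝ) - 1) ^ 2 := by
  unfold loc
  rw [nu_ndvd h, card_two hn]
  have h1 : (1 : ℝ) < p := by exact_mod_cast hp.one_lt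
  have h0 : (p : ℝ) ≠ 0 := by linarith
  have h3 : (p : ℝ) - 1 ≠ 0 := by linarith
  push_cast
  have e1 : (1 : ℝ) - 1 / p = (p - 1) / p := by field_simp
  rw [e1]
  field_simp
  ring

/-- The odd factors. -/
noncomputable def cc (p : ℕ) : ℝ := 1 - 1 / ((p : ℝ) - 1) ^ 2

theorem cc_bd {p : ℕ} (hp : 3 ≤ p) : 0 < cc p ∧ cc p ≤ 1 := by
  unfold cc
  have h1 : (3 : ℝ) ≤ p := by exact_mod_cast hp
  have h2 : (4 : ℝ) ≤ ((p : ℝ) - 1) ^ 2 := by nlinarith
  have h3 : 1 / ((p : ℝ) - 1) ^ 2 ≤ 1 / 4 := one_div_le_one_div_of_le (by norm_num) h2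
  have h4 : 0 ≤ 1 / ((p : ℝ) - 1) ^ 2 := by positivity
  constructor <;> linarith

theorem tele {w : ℕ} (hw : 3 ≤ w) : ∏ m ∈ Ico 3 w, cc m = ((w : ℝ) - 1) / (2 * ((w : ℝ) - 2)) := by
  induction w, hw using Nat.le_induction with
  | base => simp; norm_num
  | succ w hw ih =>
    rw [prod_Ico_succ_top hw, ih]
    unfold cc
    have h1 : (3 : ℝ) ≤ w := by exact_mod_cast hw
    have h2 : (w : ℝ) - 2 ≠ 0 := by linarith
    have h3 : (w : ℝ) - 1 ≠ 0 := by linarith
    push_cast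
    have h4 : (w : ℝ) + 1 - 2 ≠ 0 := by linarith
    field_simp
    ring

theorem half_le {S : Finset ℕ} {w : ℕ} (hS : S ⊆ Ico 3 w) : 1 / 2 ≤ ∏ p ∈ S, cc p := by
  rcases Nat.lt_or_ge w 3 with h | h
  · have : S = ∅ := by
      apply subset_empty.1
      rw [Ico_eq_empty (by omega)] at hS
      exact hS
    rw [this]
    norm_num
  · have h1 : (3 : ℝ) ≤ w := by exact_mod_cast h
    calc (1 : ℝ) / 2 ≤ ((w : ℝ) - 1) / (2 * ((w : ℝ) - 2)) := by
          rw [div_le_div_iff₀ (by norm_num) (by linarith)]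
          linarith
      _ = ∏ m ∈ Ico 3 w, cc m := (tele h).symm
      _ ≤ ∏ p ∈ S, cc p := by
          refine prod_le_prod_of_subset_of_le_one hS ?_ ?_
          · intro p hp
            exact (cc_bd (mem_Ico.1 hp).1).1.le
          · intro p hp _
            exact (cc_bd (mem_Ico.1 hp).1).2

theorem prod_cc_le {S : Finset ℕ} {w : ℕ} (hS : S ⊆ Ico 3 w) : ∏ p ∈ S, cc p ≤ 1 := by
  refine prod_le_one (fun p hp => ?_) (fun p hp => ?_)
  · exact (cc_bd (mem_Ico.1 (hS hp)).1).1.le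
  · exact (cc_bd (mem_Ico.1 (hS hp)).1).2

theorem loc_ge_cc {n p : ℕ} (hn : 1 ≤ n) (hp : p.Prime) (hp3 : 3 ≤ p) : cc p ≤ loc {0, n} p := by
  by_cases h : p ∣ n
  · rw [loc_dvd hn hp h]
    refine le_trans (cc_bd hp3).2 ?_
    have h1 : (1 : ℝ) < p := by exact_mod_cast hp.one_lt
    have h2 : 1 / (p : ℝ) < 1 := by rw [div_lt_one (by linarith)]; exact h1
    have h3 : (0 : ℝ) < 1 / (p : ℝ) := by positivity
    rw [le_div_iff₀ (by linarith)]
    linarith
  · rw [loc_ndvd hn hp h]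
    exact le_refl _

theorem filter_split {w : ℕ} (hw : 3 ≤ w) : (range w).filter Nat.Prime = insert 2 ((Ico 3 w).filter Nat.Prime) := by
  ext p
  simp only [mem_filter, mem_range, mem_insert, mem_Ico]
  constructor
  · rintro ⟨h1, h2⟩
    rcases Nat.lt_or_ge p 3 with h3 | h3
    · left
      have := h2.two_le
      omega
    · right
      exact ⟨⟨h3, h1⟩, h2⟩
  · rintro (h | ⟨⟨h1, h2⟩, h3⟩)
    · subst h
      exact ⟨by omega, Nat.prime_two⟩
    · exact ⟨h2, h3⟩

theorem Sz_ge_one {n : ℕ} (he : Even n) (hn : 2 ≤ n) (w : ℕ) : 1 ≤ Sz {0, n} w := by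
  unfold Sz
  rcases Nat.lt_or_ge w 3 with h | h
  · have : (range w).filter Nat.Prime = ∅ := by
      rw [filter_eq_empty_iff]
      intro p hp hp2
      have h1 := hp2.two_le
      have h2 := mem_range.1 hp
      omega
    rw [this, prod_empty]
  · rw [filter_split h, prod_insert (by simp)]
    have h2 : loc {0, n} 2 = 2 := by
      rw [loc_dvd (by omega) Nat.prime_two he.two_dvd]
      norm_num
    rw [h2]
    have h3 : 1 / 2 ≤ ∏ p ∈ (Ico 3 w).filter Nat.Prime, cc p := half_le (w := w) (filter_subset _ _)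
    have h4 : ∏ p ∈ (Ico 3 w).filter Nat.Prime, cc p ≤ ∏ p ∈ (Ico 3 w).filter Nat.Prime, loc {0, n} p := by
      refine prod_le_prod (fun p hp => ?_) (fun p hp => ?_)
      · exact (cc_bd (mem_Ico.1 (mem_filter.1 hp).1).1).1.le
      · exact loc_ge_cc (by omega) (mem_filter.1 hp).2 (mem_Ico.1 (mem_filter.1 hp).1).1
    linarith

theorem phi_eq {n : ℕ} (hn : 1 ≤ n) : ∏ p ∈ n.primeFactors, 1 / (1 - 1 / (p : ℝ)) = (n : ℝ) / Nat.totient n := by
  have h1 := Nat.totient_eq_mul_prod_factors n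
  have h2 : (Nat.totient n : ℝ) = n * ∏ p ∈ n.primeFactors, (1 - (p : ℝ)⁻¹) := by
    have : ((Nat.totient n : ℚ) : ℝ) = ((n * ∏ p ∈ n.primeFactors, (1 - (p : ℚ)⁻¹) : ℚ) : ℝ) := by rw [h1]
    push_cast at this
    exact this
  have h3 : ∏ p ∈ n.primeFactors, (1 - (p : ℝ)⁻¹) ≠ 0 := by
    rw [prod_ne_zero_iff]
    intro p hp
    have h1 : (1 : ℝ) < p := by exact_mod_cast (Nat.prime_of_mem_primeFactors hp).one_lt
    have : (p : ℝ)⁻¹ < 1 := inv_lt_one_of_one_lt₀ h1
    linarith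
  have hn0 : (n : ℝ) ≠ 0 := by
    have : n ≠ 0 := by omega
    exact_mod_cast this
  rw [h2, div_mul_eq_div_div, div_self hn0, one_div, ← prod_inv_distrib]
  refine prod_congr rfl (fun p _ => ?_)
  rw [one_div, one_div]

theorem Sz_big {n w : ℕ} (he : Even n) (hn : 2 ≤ n) (hw : n < w) :
    1 / 2 * ((n : ℝ) / Nat.totient n) ≤ Sz {0, n} w ∧ Sz {0, n} w ≤ (n : ℝ) / Nat.totient n := by
  have h1 : (range w).filter Nat.Prime = n.primeFactors ∪ ((Ico 3 w).filter (fun p => p.Prime ∧ ¬ p ∣ n)) := by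
    ext p
    simp only [mem_filter, mem_range, mem_union, mem_Ico, Nat.mem_primeFactors]
    constructor
    · rintro ⟨h1, h2⟩
      by_cases h3 : p ∣ n
      · left
        exact ⟨h2, h3, by omega⟩
      · right
        refine ⟨⟨?_, h1⟩, h2, h3⟩
        rcases Nat.lt_or_ge p 3 with h4 | h4
        · have := h2.two_le
          have h5 : p = 2 := by omega
          rw [h5] at h3
          exact absurd he.two_dvd h3
        · exact h4
    · rintro (⟨h1, h2, h3⟩ | ⟨⟨h1, h2⟩, h3, h4⟩)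
      · exact ⟨lt_of_le_of_lt (Nat.le_of_dvd (by omega) h2) hw, h1⟩
      · exact ⟨h2, h3⟩
  have hd : Disjoint n.primeFactors ((Ico 3 w).filter (fun p => p.Prime ∧ ¬ p ∣ n)) := by
    rw [disjoint_left]
    intro p hp hp2
    exact (mem_filter.1 hp2).2.2 (Nat.dvd_of_mem_primeFactors hp)
  have h2 : Sz {0, n} w = (n : ℝ) / Nat.totient n * ∏ p ∈ (Ico 3 w).filter (fun p => p.Prime ∧ ¬ p ∣ n), cc p := by
    unfold Sz
    rw [h1, prod_union hd, ← phi_eq (by omega)]
    congr 1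
    · refine prod_congr rfl (fun p hp => ?_)
      exact loc_dvd (by omega) (Nat.prime_of_mem_primeFactors hp) (Nat.dvd_of_mem_primeFactors hp)
    · refine prod_congr rfl (fun p hp => ?_)
      exact loc_ndvd (by omega) (mem_filter.1 hp).2.1 (mem_filter.1 hp).2.2
  have h3 : 1 / 2 ≤ ∏ p ∈ (Ico 3 w).filter (fun p => p.Prime ∧ ¬ p ∣ n), cc p := half_le (w := w) (filter_subset _ _)
  have h4 : ∏ p ∈ (Ico 3 w).filter (fun p => p.Prime ∧ ¬ p ∣ n), cc p ≤ 1 := prod_cc_le (w := w) (filter_subset _ _)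
  have h5 : 0 ≤ (n : ℝ) / Nat.totient n := by positivity
  rw [h2]
  constructor
  · rw [mul_comm]
    exact mul_le_mul_of_nonneg_left h3 h5
  · exact mul_le_of_le_one_right h5 h4

theorem t_SER : J_SER := by
  refine ⟨fun n he hn => ⟨Sz_ge_one he hn, ?_, ?_, ?_⟩, fun K w hK hw => ?_⟩
  · exact ge_of_tendsto' (Sz_tendsto _) (fun w => Sz_ge_one he hn w)
  · refine ge_of_tendsto (Sz_tendsto _) ?_
    filter_upwards [eventually_gt_atTop n] with w hw
    exact (Sz_big he hn hw).1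
  · refine le_of_tendsto (Sz_tendsto _) ?_
    filter_upwards [eventually_gt_atTop n] with w hw
    exact (Sz_big he hn hw).2
  · refine le_of_tendsto (Sz_tendsto _) ?_
    filter_upwards [eventually_ge_atTop w] with w' hw'
    rw [Sz_split _ hw']
    refine mul_le_of_le_one_right (Sz_nonneg _ _) ?_
    refine prod_le_one (fun p hp => ?_) (fun p hp => ?_)
    · exact le_trans (cc_bd (by have := (mem_Ico.1 (mem_filter.1 hp).1).1; omega)).1.le
        (loc_ge_cc (Nat.one_le_two_pow) (mem_filter.1 hp).2 (by have := (mem_Ico.1 (mem_filter.1 hp).1).1; omega))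
    · have h3 : 3 ≤ p := by have := (mem_Ico.1 (mem_filter.1 hp).1).1; omega
      have hp2 := (mem_filter.1 hp).2
      have h4 : ¬ p ∣ 2 ^ K := by
        intro h5
        have := (Nat.prime_dvd_prime_iff_eq hp2 Nat.prime_two).1 (hp2.dvd_of_dvd_pow h5)
        omega
      rw [loc_ndvd Nat.one_le_two_pow hp2 h4]
      exact (cc_bd h3).2

end Pool.Agent.Q65.GL
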